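import Pool.Agent.H68.QC.Targets
import Pool.Agent.H70.OQ.All

/-!
# QC: row BSR (a set of quantum algorithms at level `0`)
-/

set_option autoImplicit false

namespace Pool.Agent.H34.QC

open Pool.Agent.H68.QC Pool.Agent.H70.OQ Pool.Agent.H70.RK Pool.Agent.H6.NB Finset

/-- few variables are sensitive for a decision tree -/
private lemma tree_sens {V : Type} [Fintype V] [DecidableEq V] (y : V → Bool) (y' : V → V → Bool)
    (hy : ∀ v w, w ≠ v → y' v w = y w) (R : Pool.Agent.H68.AC.DT V) :
    (univ.filter fun v => R.eval (y' v) ≠ R.eval y).card ≤ R.depth := by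
  induction R with
  | leaf b =>
    rw [Finset.filter_eq_empty_iff.2, Finset.card_empty]
    · exact Nat.zero_le _
    · intro v _
      simp [Pool.Agent.H68.AC.DT.eval]
  | node w l r ihl ihr =>
    have hsub : (univ.filter fun v => (Pool.Agent.H68.AC.DT.node w l r).eval (y' v) ≠
        (Pool.Agent.H68.AC.DT.node w l r).eval y) ⊆
        insert w (if y w = true then univ.filter fun v => r.eval (y' v) ≠ r.eval y else
          univ.filter fun v => l.eval (y' v) ≠ l.eval y) := by
      intro v hv
      rw [Finset.mem_filter] at hv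
      by_cases hvw : v = w
      · subst hvw
        exact Finset.mem_insert_self _ _
      · refine Finset.mem_insert_of_mem ?_
        have h1 : y' v w = y w := hy v w (Ne.symm hvw)
        have h2 := hv.2
        unfold Pool.Agent.H68.AC.DT.eval at h2
        rw [h1] at h2
        by_cases h3 : y w = true
        · rw [if_pos h3, Finset.mem_filter]
          rw [h3] at h2
          exact ⟨Finset.mem_univ _, h2⟩
        · rw [if_neg h3, Finset.mem_filter]
          rw [Bool.not_eq_true] at h3
          rw [h3] at h2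
          exact ⟨Finset.mem_univ _, h2⟩
    refine (Finset.card_le_card hsub).trans ((Finset.card_insert_le _ _).trans ?_)
    have hd : (Pool.Agent.H68.AC.DT.node w l r).depth = max l.depth r.depth + 1 := rfl
    rw [hd]
    refine Nat.succ_le_succ ?_
    by_cases h3 : y w = true
    · rw [if_pos h3]
      exact ihr.trans (le_max_right _ _)
    · rw [if_neg h3]
      exact ihl.trans (le_max_left _ _)

/-- one of more than `m0` special rows hardly changes the acceptance probability -/
private lemma row_close {X : Type} {Y : ℕ → Type} [Fintype X] [DecidableEq X]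
    [∀ i, DecidableEq (Y i)] (hA0 : T_A0D) (t m0 : ℕ) (T : ℝ) (A : QAlg) (hA : (A.T : ℝ) ≤ T)
    (hT : 0 ≤ T) (hm : 576 * T ^ 2 * t ≤ m0) (e : List Bool → (Node X Y 0 → Bool) → Bool)
    (he : ∀ w, Adp (Qst (Node X Y 0) t 0) t (e w)) (S : Set X) (hS : m0 < S.ncard) :
    ∃ x ∈ S, |A.prob (fun w => e w (tabU (Y := Y) 0 () x)) -
      A.prob (fun w => e w (tabT (X := X) (Y := Y) 0 ()))| ≤ 1 / 6 := by
  classical
  have hne : S.Nonempty := by
    rw [← Set.ncard_pos]
    omega
  have : Nonempty S := hne.to_subtype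
  obtain ⟨x, hx⟩ := Pool.Agent.H6.NB.pf_BBV S A
    (fun w => e w (tabT (X := X) (Y := Y) 0 ()))
    (fun x w => e w (tabU (Y := Y) 0 () x.1)) t (by
      intro i w _
      obtain ⟨R, hR, hR2⟩ := hA0 (Node X Y 0) t t (e w) (he w)
      have h1 := tree_sens (V := X) (fun _ => true) (fun v w' => !decide (w' = v)) (by
        intro v w' hw
        rw [Bool.not_eq_true', decide_eq_false hw]) R
      refine le_trans ?_ (h1.trans hR)
      refine Finset.card_le_card_of_injOn (fun x : S => x.1) ?_ ?_
      · intro x hx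
        have hx' := (Finset.mem_filter.1 (Finset.mem_coe.1 hx)).2
        refine Finset.mem_coe.2 (Finset.mem_filter.2 ⟨Finset.mem_univ _, ?_⟩)
        have h2 := hR2 (tabU (X := X) (Y := Y) 0 () x.1)
        have h3 := hR2 (tabT (X := X) (Y := Y) 0 ())
        intro h4
        exact hx' (h2.symm.trans (Eq.trans h4 h3))
      · intro x _ x' _ h
        exact Subtype.ext h)
  refine ⟨x.1, x.2, hx.trans ?_⟩
  have hcard : (Fintype.card S : ℝ) = S.ncard := by
    rw [← Nat.card_coe_set_eq, Nat.card_eq_fintype_card]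
  have hSr : (m0 : ℝ) < S.ncard := by exact_mod_cast hS
  have hSp : (0 : ℝ) < S.ncard := lt_of_le_of_lt (Nat.cast_nonneg _) hSr
  rw [hcard]
  have h2 : (4 * T) * √((t : ℝ) / S.ncard) ≤ 1 / 6 := by
    have h3 : ((t : ℝ) / S.ncard) * (4 * T) ^ 2 ≤ (1 / 6) ^ 2 := by
      rw [div_mul_eq_mul_div, div_le_iff₀ hSp]
      have : 576 * T ^ 2 * t ≤ S.ncard := hm.trans hSr.le
      linarith
    have h4 : (4 * T) * √((t : ℝ) / S.ncard) = √(((t : ℝ) / S.ncard) * (4 * T) ^ 2) := by
      rw [Real.sqrt_mul' _ (sq_nonneg _), Real.sqrt_sq (by linarith), mul_comm]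
    rw [h4]
    exact (Real.sqrt_le_sqrt h3).trans (le_of_eq (Real.sqrt_sq (by norm_num)))
  refine le_trans ?_ h2
  refine mul_le_mul_of_nonneg_right ?_ (Real.sqrt_nonneg _)
  linarith

theorem pf_BSR (hA0D : T_A0D) : T_BSR := by
  classical
  intro X Y _ _ _ t m0 T R V1 V0 hR hT hm hF hB
  obtain ⟨e, he, hV1, hV0⟩ := hF
  obtain ⟨hc, h0⟩ := hB
  have h0' : V0 (tabT 0 (() : Hid X Y 0)) := h0
  obtain ⟨A, hA, hA2⟩ := (hV0 _).1 h0'
  obtain ⟨x, hx, hx2⟩ := row_close (X := X) (Y := Y) hA0D t m0 T A (hR A hA) hT hm e he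
    {x : X | V1 (tabU 0 (() : Hid X Y 0) x)} hc
  have h1 := (hV1 _).1 hx A hA
  have h2 := (abs_le.1 hx2).1
  linarith

end Pool.Agent.H34.QC
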