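import Pool.Agent.H68.QC.Targets
import Pool.Agent.H70.OQ.All

/-!
# QC: row FMF (formulas with one level more than the table)
-/

set_option autoImplicit false

namespace Pool.Agent.H34.QC

open Pool.Agent.H68.QC Pool.Agent.H70.OQ Pool.Agent.H70.RK Pool.Agent.H6.NB Finset

private lemma ic_nonneg (p : Prop) : 0 ≤ ic p := by
  unfold Pool.Agent.H70.OQ.ic
  split_ifs
  · exact zero_le_one
  · exact le_rfl

private lemma ic_true (p : Prop) (h : p) : ic p = 1 := by
  unfold Pool.Agent.H70.OQ.ic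
  rw [if_pos h]

private lemma ic_false (p : Prop) (h : ¬ p) : ic p = 0 := by
  unfold Pool.Agent.H70.OQ.ic
  rw [if_neg h]

/-- a bad table has many sensitive rows for one of the parts -/
private lemma bad_le {X : Type} {Y : ℕ → Type} [Fintype X] [DecidableEq X] [∀ i, DecidableEq (Y i)]
    (K k m : ℕ) (F : (Node X Y k → Bool) → Bool) (g : Fin m → (Node X Y k → Bool) → Bool)
    (b : Fin m → Bool) (hF : ∀ y, F y = true ↔ ∃ i, g i y = b i)
    (V1 V0 : (Node X Y k → Bool) → Prop) (hV0 : ∀ y, V0 y ↔ F y = true)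
    (hV1 : ∀ y, V1 y ↔ F y = false) (H : Hid X Y k) :
    ic (Bad false K k V1 V0 H) ≤ ∑ i, ic (K < (senT k (g i) H).card) := by
  classical
  by_cases hB : Bad false K k V1 V0 H
  · rw [ic_true _ hB]
    obtain ⟨h1, h2⟩ := hB
    have h2' : V0 (tabT k H) := h2
    obtain ⟨i, hi⟩ := (hF _).1 ((hV0 _).1 h2')
    have h3 : {x : X | V1 (tabU k H x)} ⊆ (senT k (g i) H : Set X) := by
      intro x hx
      have h4 := (hV1 _).1 hx
      refine Finset.mem_coe.2 (Finset.mem_filter.2 ⟨Finset.mem_univ _, ?_⟩)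
      intro h5
      have h6 : F (tabU k H x) = true := (hF _).2 ⟨i, h5.trans hi⟩
      rw [h4] at h6
      exact Bool.false_ne_true h6
    have h7 : {x : X | V1 (tabU k H x)}.ncard ≤ (senT k (g i) H).card := by
      rw [← Set.ncard_coe_finset]
      exact Set.ncard_le_ncard h3 (Finset.finite_toSet _)
    calc (1 : ℝ) = ic (K < (senT k (g i) H).card) := (ic_true _ (lt_of_lt_of_le h1 h7)).symm
      _ ≤ ∑ i, ic (K < (senT k (g i) H).card) :=
        Finset.single_le_sum (f := fun i => ic (K < (senT k (g i) H).card))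
          (fun i _ => ic_nonneg _) (Finset.mem_univ i)
  · rw [ic_false _ hB]
    exact Finset.sum_nonneg fun i _ => ic_nonneg _

private lemma errT_nonneg (X : Type) (Y : ℕ → Type) [Fintype X] [∀ i, Fintype (Y i)] (S w G : ℕ)
    (q : ℝ) (k : ℕ) (hq : 0 < q) (hq1 : q ≤ 1) : 0 ≤ errT X Y S w G q k := by
  unfold errT
  have h1 : 0 ≤ 1 - q := by linarith
  refine add_nonneg (by positivity) (Finset.sum_nonneg fun i _ => ?_)
  exact add_nonneg (by positivity) (mul_nonneg (by positivity) (pow_nonneg h1 _))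

theorem pf_FMF : T_FMF := by
  classical
  intro X Y _ _ _ _ _ S w G K q hw hq h64 hK i hG L V1 V0 hC hL
  obtain ⟨F, hF, hV0, hV1⟩ := hC
  obtain ⟨m, g, b, hm, hg, hF2⟩ := hF
  have hq1 : q ≤ 1 := by
    have h1 : (1 : ℝ) ≤ w := by exact_mod_cast hw
    have h2 : 0 ≤ ((w : ℝ) - 1) * q := mul_nonneg (by linarith) hq.le
    linarith
  have herr := errT_nonneg X Y S w G q i hq hq1
  have hcard : (0 : ℝ) ≤ Fintype.card (Hid X Y i) := Nat.cast_nonneg _
  calc ∑ H : Hid X Y i, ∑ h : Node X Y i → Y i, uw L h *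
        ic (Bad false K (i + 1) V1 V0 ((H, h) : Hid X Y (i + 1)))
      ≤ ∑ H : Hid X Y i, ∑ h : Node X Y i → Y i, uw L h *
        ∑ j, ic (K < (senT (i + 1) (g j) ((H, h) : Hid X Y (i + 1))).card) := by
        refine Finset.sum_le_sum fun H _ => Finset.sum_le_sum fun h _ => ?_
        exact mul_le_mul_of_nonneg_left
          (bad_le K (i + 1) m F g b hF2 V1 V0 hV0 hV1 ((H, h) : Hid X Y (i + 1)))
          ((Pool.Agent.H70.OQ.pf_UWS _ _ L).1 h)
    _ = ∑ j, ∑ H : Hid X Y i, ∑ h : Node X Y i → Y i, uw L h *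
        ic (K < (senT (i + 1) (g j) ((H, h) : Hid X Y (i + 1))).card) := by
        refine Eq.trans (Finset.sum_congr rfl fun H _ => ?_) Finset.sum_comm
        exact Eq.trans (Finset.sum_congr rfl fun h _ => Finset.mul_sum _ _ _) Finset.sum_comm
    _ ≤ ∑ _j : Fin m, errT X Y S w G q i * Fintype.card (Hid X Y i) := by
        refine Finset.sum_le_sum fun j _ => ?_
        exact Pool.Agent.H70.OQ.pf_TBI X Y S w G K q hw hq h64 hK i hG L (g j) (hg j) hL
    _ = m * (errT X Y S w G q i * Fintype.card (Hid X Y i)) := by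
        rw [Finset.sum_const, nsmul_eq_mul, Finset.card_univ, Fintype.card_fin]
    _ ≤ S * (errT X Y S w G q i * Fintype.card (Hid X Y i)) := by
        refine mul_le_mul_of_nonneg_right ?_ (mul_nonneg herr hcard)
        exact_mod_cast hm
    _ = S * errT X Y S w G q i * Fintype.card (Hid X Y i) := by ring

end Pool.Agent.H34.QC
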